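import Pool.Agent.K6.H64.FQ.Fin

/-!
# The kernel of the assembly map on finite subgroups in degree one, seen in finite quotients

Let `R` be any ring and `G` a group such that each element `≠ 1` of finite order in `G` has
nontrivial image in some finite quotient of `G` (for instance any residually finite group).
`Col (kgr R) G` is the colimit of the groups `K₁(R[F])` over the finite subgroups `F` of `G` and the
homomorphisms given by conjugation with elements of `G`, and `Col.to` is the map from it to
`K₁(R[G])`.

If the image of `z` in `K₁(R[G])` has finite order, then a positive multiple of `z` is a sum of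
differences `[K, c_*(x)] - [H, x]`, `x ∈ K₁(R[H])`, where `H` and `K` are finite subgroups of `G` and
`c : H → K` is a homomorphism which in each finite quotient of `G` is given by conjugation with
some element (`LocConj`, `locRel`). If all such homomorphisms are given by conjugation with elements
of `G`, then a positive multiple of `z` is zero, that is, the map from the colimit to `K₁(R[G])` is
injective up to torsion.

There is no finiteness condition on `G` or on the centralizers of its finite subgroups, and `R` is
an arbitrary, not necessarily commutative ring; since `R` may be replaced by `R[ℤ^m]`, the groups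
`K_n(R[-])`, `n ≤ 1`, are covered.

Outline of the proof. Let `E` be a finite set of finite subgroups of `G` and `Q` a finite quotient
of `G` which separates the members of `E` and the homomorphisms between their subgroups. Let `λ(C)`
be the integers with `∑_{C ⊇ K} λ(C) = 1` for each `K` in the family `S` of the subgroups of `Q`
conjugate into images of members of `E` (`C` runs through `S`). The homomorphism
`v ↦ ∑_{C ∈ S} λ(C) |C| [C, res_C v]` from `K₁(R[Q])` to the colimit modulo `locRel` is `|Q|` times a
left inverse of the map induced by `G → Q` on the classes from members of `E`, up to the orders of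
these members. This uses the Mackey formula for the restriction from `Q` to `C` of classes induced
from `F ∈ E`, where all conjugations in `Q` are replaced by homomorphisms in `G`.
-/

set_option autoImplicit false

namespace Pool.Agent.Results.MP_f7db47_al.FiniteQuotientsAllRings

open Pool.Agent.Y477.IW Pool.Agent.K6.H64.FQ CategoryTheory

theorem locRel_eq_bot (L : GrpCat.{0} ⥤ AddCommGrpCat.{0}) (G : Type) [Group G]
    (h : ∀ (D : Subgroup G) (c : D →* G), Finite D → LocConj c →
      ∃ g : G, ∀ d : D, c d = g * d * g⁻¹) : locRel L G = ⊥ := by
  unfold locRel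
  rw [AddSubgroup.closure_eq_bot_iff]
  rintro w ⟨H, K, c, x, hc, rfl⟩
  obtain ⟨g, hg⟩ := h H.1 (K.1.subtype.comp c) H.2 hc
  have h1 : ∀ a ∈ H.1, g * a * g⁻¹ ∈ K.1 := by
    intro a ha
    rw [← hg ⟨a, ha⟩]
    exact (c ⟨a, ha⟩).2
  have h2 : c = conjTo H.1 K.1 g h1 := by
    ext1 a
    exact Subtype.ext (hg a)
  rw [Set.mem_singleton_iff, sub_eq_zero, h2]
  exact Col.mk_conj H K g h1 x

theorem result (R : Type) [Ring R] (G : Type) [Group G]
    (hG : ∀ g : G, IsOfFinOrder g → g ≠ 1 →
      ∃ U : Subgroup G, U.Normal ∧ U.FiniteIndex ∧ g ∉ U)
    (z : Col (kgr R) (GrpCat.of G)) (n : ℕ) (hn : 0 < n)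
    (hz : n • Col.to (kgr_inner R) (GrpCat.of G) z = 0) :
    ∃ m : ℕ, 0 < m ∧ m • z ∈ locRel (kgr R) G ∧
      ((∀ (D : Subgroup G) (c : D →* G), Finite D → LocConj c →
        ∃ g : G, ∀ d : D, c d = g * d * g⁻¹) → m • z = 0) := by
  obtain ⟨m, hm, h⟩ := main hG z n hn hz
  refine ⟨m, hm, h, fun hc => ?_⟩
  rw [locRel_eq_bot (kgr R) G hc, AddSubgroup.mem_bot] at h
  exact h

end Pool.Agent.Results.MP_f7db47_al.FiniteQuotientsAllRings
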