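import Pool.Agent.K6.H28.GR.Final

set_option autoImplicit false

/-! # Nilpotent groups: uniform induction from finite subgroups in degree zero

For all `c, n, s` there is `N` such that for every division ring `D` (of any characteristic) and
every nilpotent group `G` of class at most `c` (with arbitrary torsion, for instance every finite
one), every idempotent `n × n` matrix `E` over `DG` whose support has at most `s` elements is stably
induced from finite subgroups of order at most `N`, by means of matrices of size and support at most
`N`. No hypothesis is assumed.

The proof. An ultraproduct of counterexamples is an idempotent matrix over the group ring of a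
nilpotent group `G` over a division ring `D`; we may take `G` finitely generated.

* Let `T` be the finite torsion subgroup; `G / T` is an iterated extension by `ℤ`. If the order of
  `T` is invertible in `D`, then `DT` is semisimple, and by induction over the extensions by `ℤ` all
  finitely generated `DG`-modules have finite resolutions by modules induced from `T` (the theorem
  of P. Hall and the resolutions `0 → D(n) → D(n+1) → M → 0` by induced modules, proved in
  `Pool.Agent.K6.H28.GR`).
* If `D` has characteristic `p` and `G` has elements of order `p`, there is a central element `z` of
  order `p`, and the kernel of `DG → D[G/z]` is nilpotent; equivalences of idempotents and the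
  idempotents over the group rings of finite subgroups can be lifted. -/

namespace Pool.Agent.Results.MP_f7db47_al.NilpotentUniformInduction

open Matrix

/-- the size of the support of a matrix over a group ring: the number of pairs
(entry, group element in the support of this entry) -/
def msupp {D G ι κ : Type} [DivisionRing D] [Fintype ι] [Fintype κ]
    (A : Matrix ι κ (MonoidAlgebra D G)) : ℕ :=
  ∑ i, ∑ j, (A i j).coeff.support.card

/-- `A` is idempotent and, up to a permutation of the indices, block-diagonal with each block a
matrix over the group ring of a finite subgroup of order at most `N`. The row module of `A` is then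
a finite direct sum of modules induced from finitely generated projective modules over the group
rings of finite subgroups of order at most `N`. -/
def FiniteBlocks {D G : Type} [DivisionRing D] [Group G] (N : ℕ) {a : ℕ}
    (A : Matrix (Fin a) (Fin a) (MonoidAlgebra D G)) : Prop :=
  A * A = A ∧ ∃ H : Fin a → Subgroup G, (∀ i, Finite (H i) ∧ Nat.card (H i) ≤ N) ∧
    ∀ i j, A i j ≠ 0 → H i = H j ∧ ∀ g ∈ (A i j).coeff.support, g ∈ H i

/-- `E` is stably induced from finite subgroups, within `N`: with `U` and `V` as mutually inverse
isomorphisms `(DG)ⁿ E ⊕ (DG)ᵃ A ≅ (DG)ᵇ B`, where all sizes and supports and the orders of the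
finite subgroups are at most `N` -/
def InducedWithin {D G : Type} [DivisionRing D] [Group G] (N : ℕ) {n : ℕ}
    (E : Matrix (Fin n) (Fin n) (MonoidAlgebra D G)) : Prop :=
  ∃ a ≤ N, ∃ b ≤ N, ∃ (A : Matrix (Fin a) (Fin a) (MonoidAlgebra D G))
    (B : Matrix (Fin b) (Fin b) (MonoidAlgebra D G))
    (U : Matrix (Fin n ⊕ Fin a) (Fin b) (MonoidAlgebra D G))
    (V : Matrix (Fin b) (Fin n ⊕ Fin a) (MonoidAlgebra D G)),
    FiniteBlocks N A ∧ FiniteBlocks N B ∧ msupp U ≤ N ∧ msupp V ≤ N ∧
    U * V = fromBlocks E 0 0 A ∧ V * U = B

/-- For all `c, n, s` there is `N` such that for all division rings `D` and all nilpotent groups `G`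
of class at most `c` (`γ_{c+1}(G) = 1`), every idempotent `n × n` matrix over `DG` with support of
size at most `s` is stably induced from finite subgroups of order at most `N`, by means of matrices
of size and support at most `N`. -/
theorem result (c n s : ℕ) : ∃ N : ℕ, ∀ (D G : Type) [DivisionRing D] [Group G],
    (⊤ : Subgroup G).lowerCentralSeries c = ⊥ →
    ∀ E : Matrix (Fin n) (Fin n) (MonoidAlgebra D G), E * E = E → msupp E ≤ s →
    InducedWithin N E :=
  Pool.Agent.K6.H28.GR.nilpotent_uniform c n s

end Pool.Agent.Results.MP_f7db47_al.NilpotentUniformInduction
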