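import Pool.Agent.K6.H28.K1.UnifK

set_option autoImplicit false

/-! # Degree one of the Farrell–Jones conjecture: Whitehead groups and uniform bounds

For a torsion-free group `G` and a division ring `D` (respectively for `ℤ`) the surjectivity of the
assembly map `A₁` says that `K₁(DG)` (respectively `K₁(ℤG)`) is generated by the classes of the
units `u g`, with `u` a unit of the coefficient ring and `g ∈ G`, that is, that every invertible
matrix over the group ring is stably a product of elementary matrices and of diagonal matrices with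
such entries (`StablyTrivial`; for `ℤ` this is the statement that the Whitehead group `Wh(G)` is
trivial).

We prove
* that for each class of pairs `(D, G)` closed under ultraproducts, and more generally for each
  sequence of classes `C N` such that ultraproducts of pairs `(Dᵢ, Gᵢ) ∈ C i` are in all `C N`, this
  holds for all `(D, G) ∈ ⋂ C N` if and only if it holds with uniform bounds; and the same for the
  integral group rings of the groups in a class. For example, if `C N` is the class of the groups
  without elements of the orders `2, …, N`, then the left hand side says that `Wh(G) = 0` for all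
  torsion-free groups, and the right hand side is a statement on groups with large torsion;
* that the bounds exist for nilpotent groups: for all `c, n, s` there is `N` such that for every
  nilpotent group `G` of class at most `c` without elements of the orders `2, …, N` (for example,
  every `p`-group of class at most `c` with `p > N`), every invertible `n × n` matrix of size at most
  `s`, with inverse of size at most `s`, is trivial within `N`, over all division rings and over
  the integers. -/

namespace Pool.Agent.Results.MP_f7db47_al.UniformDegreeOne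

open Matrix Filter

/-- the elementary matrices `1 + c eᵢⱼ` with `i ≠ j` -/
def Elementary {S ι : Type} [Ring S] [DecidableEq ι] (A : Matrix ι ι S) : Prop :=
  ∃ i j, i ≠ j ∧ ∃ c : S, A = 1 + Matrix.single i j c

/-- the diagonal matrices whose diagonal entries are trivial units `u g` of the group ring `ΛG`,
where `u` is a unit of `Λ` and `g ∈ G` -/
def TrivialDiagonal {Λ G ι : Type} [Ring Λ] [Group G] [DecidableEq ι]
    (A : Matrix ι ι (MonoidAlgebra Λ G)) : Prop :=
  ∃ (g : ι → G) (u : ι → Λˣ), A = Matrix.diagonal fun i => MonoidAlgebra.single (g i) (u i : Λ)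

/-- `A ⊕ 1` is, for an identity matrix of some size, a product of elementary matrices and of diagonal
matrices with trivial units on the diagonal. For `Λ = ℤ` this says that the class of `A` in the
Whitehead group of `G` is trivial. -/
def StablyTrivial {Λ G : Type} [Ring Λ] [Group G] {n : ℕ}
    (A : Matrix (Fin n) (Fin n) (MonoidAlgebra Λ G)) : Prop :=
  ∃ (m : ℕ) (l : List (Matrix (Fin n ⊕ Fin m) (Fin n ⊕ Fin m) (MonoidAlgebra Λ G))),
    (∀ X ∈ l, Elementary X ∨ TrivialDiagonal X) ∧ l.prod = fromBlocks A 0 0 1

/-- the size of the support of a matrix over a group ring: the number of pairs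
(entry, group element in the support of this entry) -/
def msupp {D G ι κ : Type} [DivisionRing D] [Fintype ι] [Fintype κ]
    (A : Matrix ι κ (MonoidAlgebra D G)) : ℕ :=
  ∑ i, ∑ j, (A i j).coeff.support.card

/-- the norm of a matrix over an integral group ring: the sum of the absolute values of all
coefficients of all entries -/
def mnorm {G ι κ : Type} [Fintype ι] [Fintype κ] (A : Matrix ι κ (MonoidAlgebra ℤ G)) : ℕ :=
  ∑ i, ∑ j, ∑ g ∈ (A i j).coeff.support, ((A i j).coeff g).natAbs

/-- `A` is trivial within `N` (division rings): in `StablyTrivial`, the identity matrix has size at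
most `N`, there are at most `N` factors, and each has support of size at most `N` -/
def TrivialWithin {D G : Type} [DivisionRing D] [Group G] (N : ℕ) {n : ℕ}
    (A : Matrix (Fin n) (Fin n) (MonoidAlgebra D G)) : Prop :=
  ∃ m ≤ N, ∃ l : List (Matrix (Fin n ⊕ Fin m) (Fin n ⊕ Fin m) (MonoidAlgebra D G)),
    l.length ≤ N ∧ (∀ X ∈ l, (Elementary X ∨ TrivialDiagonal X) ∧ msupp X ≤ N) ∧
    l.prod = fromBlocks A 0 0 1

/-- `A` is trivial within `N` (integral group rings): the same with norms instead of supports -/
def TrivialWithinInt {G : Type} [Group G] (N : ℕ) {n : ℕ}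
    (A : Matrix (Fin n) (Fin n) (MonoidAlgebra ℤ G)) : Prop :=
  ∃ m ≤ N, ∃ l : List (Matrix (Fin n ⊕ Fin m) (Fin n ⊕ Fin m) (MonoidAlgebra ℤ G)),
    l.length ≤ N ∧ (∀ X ∈ l, (Elementary X ∨ TrivialDiagonal X) ∧ mnorm X ≤ N) ∧
    l.prod = fromBlocks A 0 0 1

/-- `G'` is the ultraproduct of the groups `Gᵢ` along the nonprincipal ultrafilter `hyperfilter ℕ`:
the quotient of the product by the subgroup of the sequences which are trivial almost everywhere -/
def GroupUltraproduct (G : ℕ → Type) [∀ i, Group (G i)] (G' : Type) [Group G'] : Prop :=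
  ∃ ρ : (∀ i, G i) →* G', Function.Surjective ρ ∧
    ∀ g, ρ g = 1 ↔ ∀ᶠ i in (hyperfilter ℕ : Filter ℕ), g i = 1

/-- `D'` is the ultraproduct of the division rings `Dᵢ` along `hyperfilter ℕ`: the quotient of the
product by the ideal of the sequences which vanish almost everywhere -/
def RingUltraproduct (D : ℕ → Type) [∀ i, DivisionRing (D i)] (D' : Type) [DivisionRing D'] :
    Prop :=
  ∃ π : (∀ i, D i) →+* D', Function.Surjective π ∧
    ∀ x, π x = 0 ↔ ∀ᶠ i in (hyperfilter ℕ : Filter ℕ), x i = 0

/-- (1) Let `C 0, C 1, …` be classes of pairs (division ring, group) such that the ultraproduct of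
pairs `(Dᵢ, Gᵢ) ∈ C i` is in all `C N`. All invertible matrices over `DG`, for all `(D, G)` in the
intersection of the classes, are stably trivial, if and only if for all `n` and `s` there is `N`
such that for all `(D, G) ∈ C N` all invertible `n × n` matrices `A` over `DG` such that `A` and
`A⁻¹` have supports of size at most `s` are trivial within `N`.
(2) The same for classes of groups and integral group rings, with norms instead of supports.
(3) For all `c, n, s` there is `N` such that for all division rings `D` and all nilpotent groups `G`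
of class at most `c` without nontrivial elements of order at most `N`, all invertible `n × n`
matrices `A` over `DG` such that `A` and `A⁻¹` have supports of size at most `s` are trivial within
`N`.
(4) The same for integral group rings, with norms instead of supports. -/
theorem result :
    (∀ C : ℕ → ∀ (D G : Type) [DivisionRing D] [Group G], Prop,
      (∀ (D G : ℕ → Type) [∀ i, DivisionRing (D i)] [∀ i, Group (G i)] (D' G' : Type)
        [DivisionRing D'] [Group G'], RingUltraproduct D D' → GroupUltraproduct G G' →
        (∀ i, C i (D i) (G i)) → ∀ N, C N D' G') →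
      ((∀ (D G : Type) [DivisionRing D] [Group G], (∀ N, C N D G) →
        ∀ (n : ℕ) (A B : Matrix (Fin n) (Fin n) (MonoidAlgebra D G)), A * B = 1 → B * A = 1 →
        StablyTrivial A) ↔
      ∀ n s : ℕ, ∃ N : ℕ, ∀ (D G : Type) [DivisionRing D] [Group G], C N D G →
        ∀ A B : Matrix (Fin n) (Fin n) (MonoidAlgebra D G), A * B = 1 → B * A = 1 →
        msupp A ≤ s → msupp B ≤ s → TrivialWithin N A)) ∧
    (∀ C : ℕ → ∀ (G : Type) [Group G], Prop,
      (∀ (G : ℕ → Type) [∀ i, Group (G i)] (G' : Type) [Group G'], GroupUltraproduct G G' →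
        (∀ i, C i (G i)) → ∀ N, C N G') →
      ((∀ (G : Type) [Group G], (∀ N, C N G) →
        ∀ (n : ℕ) (A B : Matrix (Fin n) (Fin n) (MonoidAlgebra ℤ G)), A * B = 1 → B * A = 1 →
        StablyTrivial A) ↔
      ∀ n s : ℕ, ∃ N : ℕ, ∀ (G : Type) [Group G], C N G →
        ∀ A B : Matrix (Fin n) (Fin n) (MonoidAlgebra ℤ G), A * B = 1 → B * A = 1 →
        mnorm A ≤ s → mnorm B ≤ s → TrivialWithinInt N A)) ∧
    (∀ c n s : ℕ, ∃ N : ℕ, ∀ (D G : Type) [DivisionRing D] [Group G],
      (⊤ : Subgroup G).lowerCentralSeries c = ⊥ →
      (∀ g : G, ∀ k : ℕ, 0 < k → k ≤ N → g ^ k = 1 → g = 1) →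
      ∀ A B : Matrix (Fin n) (Fin n) (MonoidAlgebra D G), A * B = 1 → B * A = 1 →
      msupp A ≤ s → msupp B ≤ s → TrivialWithin N A) ∧
    ∀ c n s : ℕ, ∃ N : ℕ, ∀ (G : Type) [Group G],
      (⊤ : Subgroup G).lowerCentralSeries c = ⊥ →
      (∀ g : G, ∀ k : ℕ, 0 < k → k ≤ N → g ^ k = 1 → g = 1) →
      ∀ A B : Matrix (Fin n) (Fin n) (MonoidAlgebra ℤ G), A * B = 1 → B * A = 1 →
      mnorm A ≤ s → mnorm B ≤ s → TrivialWithinInt N A := by
  refine ⟨fun C hC => Pool.Agent.K6.H28.K1.equivalenceK C ?_,
    fun C hC => Pool.Agent.K6.H28.K1.equivalenceZ C ?_, Pool.Agent.K6.H28.K1.nilpotentK,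
    Pool.Agent.K6.H28.K1.nilpotentZ⟩
  · intro D G _ _ h
    refine hC D G _ _ ⟨Ideal.Quotient.mk _, Ideal.Quotient.mk_surjective, fun x => ?_⟩
      ⟨QuotientGroup.mk' _, QuotientGroup.mk'_surjective _, fun g => ?_⟩ h
    · exact Pool.Agent.K6.H28.GR.mk_zero_iff _ _ x
    · rw [QuotientGroup.mk'_apply, QuotientGroup.eq_one_iff]
      exact Iff.rfl
  · intro G _ h
    refine hC G _ ⟨QuotientGroup.mk' _, QuotientGroup.mk'_surjective _, fun g => ?_⟩ h
    rw [QuotientGroup.mk'_apply, QuotientGroup.eq_one_iff]
    exact Iff.rfl

end Pool.Agent.Results.MP_f7db47_al.UniformDegreeOne
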