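import Pool.Agent.K6.H28.GR.Final

set_option autoImplicit false

/-! # Degree zero of the Farrell–Jones conjecture over division rings is a uniform finite statement

For a division ring `D` and a finite or virtually cyclic group `V` the negative `K`-groups of `DV`
vanish, and so do the Nil groups in degree zero; the surjectivity of the assembly map `A₀` for
`(G, D)` says that `K₀(DG)` is generated by the images of the groups `K₀(DH)` for the finite
subgroups `H` of `G`, that is, that every finitely generated projective `DG`-module is
`StablyInduced`.

We prove that this holds for all `D` and `G` if and only if it holds with uniform bounds: for all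
`n, s` there is `N` such that every idempotent `n × n` matrix with support of size at most `s`, over
any `DG`, is stably induced from finite subgroups of order at most `N` by matrices of size and
support at most `N`. More generally this is true within every class of pairs `(D, G)` closed under
ultraproducts, and for every sequence of classes `C N` such that the ultraproducts of pairs
`(Dᵢ, Gᵢ) ∈ C i` belong to all `C N`. For example, if `C N` is the class of the pairs `(D, G)` where
`G` has no elements of the orders `2, …, N`, then the left hand side is the conjecture in degree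
zero for torsion-free groups and the right hand side is about groups with large torsion. -/

namespace Pool.Agent.Results.MP_f7db47_al.UniformDegreeZero

open Matrix Filter

/-- the size of the support of a matrix over a group ring: the number of pairs
(entry, group element in the support of this entry) -/
def msupp {D G ι κ : Type} [DivisionRing D] [Fintype ι] [Fintype κ]
    (A : Matrix ι κ (MonoidAlgebra D G)) : ℕ :=
  ∑ i, ∑ j, (A i j).coeff.support.card

/-- `A` is idempotent and, up to a permutation of the indices, block-diagonal with each block a
matrix over the group ring of a finite subgroup of order at most `N`. The row module of `A` is then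
a finite direct sum of modules induced from finitely generated projective modules over the group
rings of finite subgroups of order at most `N`. -/
def FiniteBlocks {D G : Type} [DivisionRing D] [Group G] (N : ℕ) {a : ℕ}
    (A : Matrix (Fin a) (Fin a) (MonoidAlgebra D G)) : Prop :=
  A * A = A ∧ ∃ H : Fin a → Subgroup G, (∀ i, Finite (H i) ∧ Nat.card (H i) ≤ N) ∧
    ∀ i j, A i j ≠ 0 → H i = H j ∧ ∀ g ∈ (A i j).coeff.support, g ∈ H i

/-- `E` is stably induced from finite subgroups, within `N`: with `U` and `V` as mutually inverse
isomorphisms `(DG)ⁿ E ⊕ (DG)ᵃ A ≅ (DG)ᵇ B`, where all sizes and supports and the orders of the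
finite subgroups are at most `N` -/
def InducedWithin {D G : Type} [DivisionRing D] [Group G] (N : ℕ) {n : ℕ}
    (E : Matrix (Fin n) (Fin n) (MonoidAlgebra D G)) : Prop :=
  ∃ a ≤ N, ∃ b ≤ N, ∃ (A : Matrix (Fin a) (Fin a) (MonoidAlgebra D G))
    (B : Matrix (Fin b) (Fin b) (MonoidAlgebra D G))
    (U : Matrix (Fin n ⊕ Fin a) (Fin b) (MonoidAlgebra D G))
    (V : Matrix (Fin b) (Fin n ⊕ Fin a) (MonoidAlgebra D G)),
    FiniteBlocks N A ∧ FiniteBlocks N B ∧ msupp U ≤ N ∧ msupp V ≤ N ∧
    U * V = fromBlocks E 0 0 A ∧ V * U = B

/-- `P ⊕ Q ≅ Q'` where `Q` and `Q'` are finite direct sums of modules induced from finitely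
generated projective modules over the group rings of finite subgroups (the row modules of
`FiniteBlocks` matrices) -/
def StablyInduced (D G : Type) [DivisionRing D] [Group G] (P : Type) [AddCommGroup P]
    [Module (MonoidAlgebra D G) P] : Prop :=
  ∃ (N a b : ℕ) (A : Matrix (Fin a) (Fin a) (MonoidAlgebra D G))
    (B : Matrix (Fin b) (Fin b) (MonoidAlgebra D G)), FiniteBlocks N A ∧ FiniteBlocks N B ∧
    Nonempty ((P × LinearMap.range A.vecMulLinear) ≃ₗ[MonoidAlgebra D G]
      LinearMap.range B.vecMulLinear)

/-- `(D', G')` is the ultraproduct of the pairs `(Dᵢ, Gᵢ)` along the nonprincipal ultrafilter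
`hyperfilter ℕ`: the quotient of the product of the rings by the ideal of the sequences which vanish
almost everywhere, and the quotient of the product of the groups by the subgroup of the sequences
which are trivial almost everywhere -/
def IsUltraproduct (D G : ℕ → Type) [∀ i, DivisionRing (D i)] [∀ i, Group (G i)] (D' G' : Type)
    [DivisionRing D'] [Group G'] : Prop :=
  (∃ π : (∀ i, D i) →+* D', Function.Surjective π ∧
    ∀ x, π x = 0 ↔ ∀ᶠ i in (hyperfilter ℕ : Filter ℕ), x i = 0) ∧
  ∃ ρ : (∀ i, G i) →* G', Function.Surjective ρ ∧
    ∀ g, ρ g = 1 ↔ ∀ᶠ i in (hyperfilter ℕ : Filter ℕ), g i = 1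

/-- Let `C 0, C 1, …` be classes of pairs (division ring, group) such that the ultraproduct of pairs
`(Dᵢ, Gᵢ) ∈ C i` is in all `C N` (for example one class closed under ultraproducts, such as the
class of all pairs). All finitely generated projective modules over `DG`, for all `(D, G)` in the
intersection of the classes, are stably induced from finite subgroups, if and only if for all `n`
and `s` there is `N` such that for all `(D, G) ∈ C N` all idempotent `n × n` matrices over `DG` with
support of size at most `s` are stably induced from finite subgroups within `N`. -/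
theorem result (C : ℕ → ∀ (D G : Type) [DivisionRing D] [Group G], Prop)
    (hC : ∀ (D G : ℕ → Type) [∀ i, DivisionRing (D i)] [∀ i, Group (G i)] (D' G' : Type)
      [DivisionRing D'] [Group G'], IsUltraproduct D G D' G' →
      (∀ i, C i (D i) (G i)) → ∀ N, C N D' G') :
    (∀ (D G : Type) [DivisionRing D] [Group G], (∀ N, C N D G) →
      ∀ (P : Type) [AddCommGroup P] [Module (MonoidAlgebra D G) P],
        Module.Finite (MonoidAlgebra D G) P → Module.Projective (MonoidAlgebra D G) P →
        StablyInduced D G P) ↔
    ∀ n s : ℕ, ∃ N : ℕ, ∀ (D G : Type) [DivisionRing D] [Group G], C N D G →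
      ∀ E : Matrix (Fin n) (Fin n) (MonoidAlgebra D G), E * E = E → msupp E ≤ s →
      InducedWithin N E := by
  refine Pool.Agent.K6.H28.GR.equivalence C ?_
  intro D G _ _ h
  refine hC D G _ _ ⟨⟨Ideal.Quotient.mk _, Ideal.Quotient.mk_surjective, fun x => ?_⟩,
    ⟨QuotientGroup.mk' _, QuotientGroup.mk'_surjective _, fun g => ?_⟩⟩ h
  · exact Pool.Agent.K6.H28.GR.mk_zero_iff _ _ x
  · rw [QuotientGroup.mk'_apply, QuotientGroup.eq_one_iff]
    exact Iff.rfl

end Pool.Agent.Results.MP_f7db47_al.UniformDegreeZero
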